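import Pool.Agent.H77.SF.KT

/-! # Elementary levels satisfy ZFC -/

open Ordinal Cardinal Order Set
open scoped ZFSet

namespace SF.H24

open SF

theorem kb (hWB : T_WB) (hWC : T_WC) : T_KB := by
  intro lam hlam hel
  have h0 : (∅ : V) ∈ V_ lam := by
    rw [ZFSet.mem_vonNeumann, ZFSet.rank_empty]
    exact hlam.bot_lt
  have hsame : SameTh (· ∈ V_ lam) Al := by
    intro φ hφ v w
    have h1 : Sat (· ∈ V_ lam) φ v ↔ Sat (· ∈ V_ lam) φ (fun _ => ∅) :=
      satP_congr _ _ φ v _ (by rw [hφ]; intro i hi; omega)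
    have h2 : Sat Al φ w ↔ Sat Al φ (fun _ => ∅) :=
      satP_congr _ _ φ w _ (by rw [hφ]; intro i hi; omega)
    rw [h1, h2]
    exact hel φ (fun _ => ∅) fun _ => h0
  have ht : Trn (· ∈ V_ lam) := fun x hx y hy =>
    (ZFSet.isTransitive_vonNeumann lam).mem_trans hy hx
  have ht2 : Trn Al := fun _ _ _ _ => trivial
  exact (hWB _ Al ht ht2 ⟨∅, h0⟩ ⟨∅, trivial⟩ hsame).2.2 hWC

end SF.H24
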