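import Pool.Agent.H45.SF.RT

/-! # The target of a good morphism is an object -/

open Ordinal Cardinal Order Set
open scoped ZFSet

namespace Pool.Agent.H24.SF

open _root_.SF

private theorem bmor_ext {A C : BA} (h k : BMor A C) (hk : ∀ x, h x = k x) : h = k := by
  obtain ⟨⟨f, hf1, hf2⟩, hf3⟩ := h
  obtain ⟨⟨g, hg1, hg2⟩, hg3⟩ := k
  have : f = g := funext hk
  subst this
  rfl

/-- restriction preserves goodness -/
private theorem good_res (hG1 : T_G1) (hG2 : T_G2) {A C : BA} (h : BMor A C) (hh : Good h)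
    (y : El C.B) : Good (h.res y) := by
  have h1 : Good ((BMor.id C).res y) := by
    refine hG2 _ _ _ fun c hc => ⟨c, ?_⟩
    have h2 : c ≤ y := by
      refine le_trans hc ?_
      change (⊤ : El C.B) ⊓ y ≤ y
      exact inf_le_right
    change c ⊓ y = c
    exact inf_eq_left.2 h2
  have h3 := hG1 _ _ _ h ((BMor.id C).res y) hh h1
  have h4 : h.comp ((BMor.id C).res y) = h.res y := bmor_ext _ _ fun x => rfl
  rwa [h4] at h3

/-- the claim on the generators -/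
private theorem claim (hUC : T_UC) (hUV : T_UV) (hMB : T_MB) (κ : Ordinal.{0}) (Z : BA)
    (i : ∀ v : Obj, BMor v.A Z) (hκ : Inac κ) (hcu : CU κ Z i) (ξ : Ordinal.{0}) (c c2 : Cd)
    (hc : c.code ∈ V_ κ) (hc2 : c2.code ∈ V_ κ) (hξ : ξ < c.v.α) (hξ2 : ξ < c2.v.α) :
    i c2.v (c2.v.b ξ) ⊓ i c.v ⊤ ≤ i c.v (c.v.b ξ) := by
  obtain ⟨uc1, -, uc3, -, -, -, -, uc8, -⟩ := hUC κ Z i hκ hcu
  obtain ⟨-, -, -, -, -, -, -, -, -, uv10, -, -⟩ := hUV κ hκ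
  by_contra hcon
  have hY : (i c.v (c.v.b ξ))ᶜ ⊓ (i c2.v (c2.v.b ξ) ⊓ i c.v ⊤) ≠ ⊥ := by
    intro h
    apply hcon
    have h1 : Disjoint (i c.v (c.v.b ξ))ᶜ (i c2.v (c2.v.b ξ) ⊓ i c.v ⊤) := disjoint_iff.2 h
    have h2 := h1.symm.le_compl_right
    rwa [compl_compl] at h2
  have hb2 : c2.v.b ξ ≠ ⊥ := by
    intro h
    apply hY
    rw [h, (hMB _ _ (i c2.v).toMor).2.1]
    simp
  have ht : (⊤ : El c.v.A.B) ≠ ⊥ := by
    intro h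
    exact c.ne (le_bot_iff.1 (h ▸ le_top))
  obtain ⟨t, htk, htl1, htl2, htY⟩ := uc8 (i c.v (c.v.b ξ))ᶜ ⟨c2.v, c2.v.b ξ, hb2⟩ ⟨c.v, ⊤, ht⟩
    ((uv10 _).2 ((uv10 c2).1 hc2)) ((uv10 _).2 ((uv10 c).1 hc)) hY
  obtain ⟨h2, hh2⟩ := htl1
  obtain ⟨h1, hh1⟩ := htl2
  have e1 : h2 (c2.v.b ξ) = t.x := hh2.img
  have e2 : h2 (c2.v.b ξ) = t.v.b ξ ⊓ t.x := hh2.gens ξ hξ2
  have e3 : h1 (c.v.b ξ) = t.v.b ξ ⊓ t.x := hh1.gens ξ hξ
  have e4 : h1 (c.v.b ξ) = t.x := by rw [e3, ← e2, e1]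
  have hb : c.v.b ξ ≠ ⊥ := by
    intro h
    rw [h, (hMB _ _ h1.toMor).2.1] at e4
    exact t.ne e4.symm
  have hle : t.le ⟨c.v, c.v.b ξ, hb⟩ := ⟨h1, hh1.len, hh1.good, hh1.top, hh1.gens, e4⟩
  have h5 := uc1 t ⟨c.v, c.v.b ξ, hb⟩ htk ((uv10 _).2 ((uv10 c).1 hc)) hle
  have h6 : i t.v t.x = ⊥ := by
    apply le_bot_iff.1
    have h7 : i t.v t.x ≤ i c.v (c.v.b ξ) ⊓ (i c.v (c.v.b ξ))ᶜ := le_inf h5 htY
    rwa [inf_compl_eq_bot] at h7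
  exact t.ne (uc3 t.v ((uv10 t).1 htk) t.x h6)

/-- closure under addition -/
private theorem add_lt (hUV : T_UV) (κ : Ordinal.{0}) (hκ : Inac κ) (a : Ordinal.{0})
    (ha : a < κ) (b : Ordinal.{0}) : b < κ → a + b < κ := by
  induction b using WellFoundedLT.induction with
  | ind b ih =>
  intro hb
  by_cases hb0 : b = 0
  · rwa [hb0, add_zero]
  obtain ⟨-, -, -, -, -, -, -, -, -, -, uv11, -⟩ := hUV κ hκ
  obtain ⟨α, hα, h⟩ := uv11 (Set.Iio b) (fun γ => γ.1.toZFSet) (fun γ => a + γ.1)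
    (by
      intro x y hxy
      exact Subtype.ext (Ordinal.toZFSet_injective hxy))
    b.toZFSet (by rwa [ZFSet.mem_vonNeumann, Ordinal.rank_toZFSet])
    (fun γ => Ordinal.toZFSet_mem_toZFSet_iff.2 γ.2) (fun γ => ih γ.1 γ.2 (γ.2.trans hb))
  have h1 : a + b ≤ succ α := by
    rw [Ordinal.add_le_iff hb0]
    intro d hd
    exact lt_succ_of_le (h ⟨d, hd⟩)
  exact lt_of_le_of_lt h1 (hκ.lim.succ_lt hα)

theorem pf_RB (hUZ : T_UZ) (hUC : T_UC) (hUV : T_UV) (hUO : T_UO) (hMB : T_MB) (hG1 : T_G1)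
    (hG2 : T_G2) : T_RB := by
  intro κ κ' Z' C' i' k' hκ hκ' hlt hcu hCr hkg hkt
  obtain ⟨-, -, -, -, -, -, -, -, uv9, uv10, -, uv12⟩ := hUV κ hκ
  obtain ⟨-, -, -, -, -, -, -, -, uv9', uv10', -, -⟩ := hUV κ' hκ'
  have hCne : C'.B ≠ ∅ := by
    intro h
    have := C'.cba.bot
    rw [h] at this
    exact ZFSet.notMem_empty _ this
  obtain ⟨α2, hα2, e, he, hes⟩ := uv12 C'.B hCr hCne
  let u : Ordinal.{0} → El Z'.B := fun ξ =>
    ⨆ c : {c : Cd // c.code ∈ V_ κ' ∧ ξ < c.v.α}, i' c.1.v (c.1.v.b ξ)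
  have hu : ∀ (c : Cd), c.code ∈ V_ κ' → ∀ ξ < c.v.α, u ξ ⊓ i' c.v ⊤ = i' c.v (c.v.b ξ) := by
    intro c hc ξ hξ
    apply le_antisymm
    · rw [iSup_inf_eq]
      refine iSup_le fun c2 => ?_
      exact claim hUC hUV hMB κ' Z' i' hκ' hcu ξ c c2.1 hc c2.2.1 hξ c2.2.2
    · refine le_inf ?_ ((hMB _ _ (i' c.v).toMor).1 _ _ le_top)
      exact le_iSup (fun c : {c : Cd // c.code ∈ V_ κ' ∧ ξ < c.v.α} => i' c.1.v (c.1.v.b ξ))
        ⟨c, hc, hξ⟩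
  let b : Ordinal.{0} → El C'.B := fun ξ => open Classical in
    if ξ < κ' then k' (u ξ) else if ξ < κ' + α2 then ⟨e (ξ - κ'), he _⟩ else ⊥
  have hb1 : ∀ ξ < κ', b ξ = k' (u ξ) := fun ξ hξ => if_pos hξ
  have hb2 : ∀ x : El C'.B, ∃ ξ, b ξ = x := by
    intro x
    obtain ⟨ζ, hζ, hz⟩ := hes x.val x.mem
    refine ⟨κ' + ζ, ?_⟩
    have h1 : ¬ κ' + ζ < κ' := not_lt.2 (le_self_add)
    have h2 : κ' + ζ < κ' + α2 := (add_lt_add_iff_left κ').2 hζ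
    simp only [b]
    rw [if_neg h1, if_pos h2]
    apply El.ext
    change e (κ' + ζ - κ') = x.val
    rw [Ordinal.add_sub_cancel, hz]
  have h1 : ∀ ξ, κ' + α2 ≤ ξ → b ξ = ⊥ := by
    intro ξ hξ
    have h1 : ¬ ξ < κ' := not_lt.2 (le_trans (le_self_add) hξ)
    simp only [b]
    rw [if_neg h1, if_neg (not_lt.2 hξ)]
  have h2 : Good (bas C') := by
    obtain ⟨-, ⟨A, α, b0, out, good, gen⟩, hA, hα, -⟩ := hUO
    dsimp only at hA hα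
    subst hA
    obtain ⟨-, -, -, -, -, -, -, -, uc9⟩ := hUC κ' Z' i' hκ' hcu
    let v0 : Obj := ⟨BA0, α, b0, out, good, gen⟩
    have hv0 : v0.code ∈ V_ κ' := (uc9 v0 rfl hα).1
    have hg0 : Good (i' v0) := hUZ κ' Z' i' hκ' hcu v0 hv0
    have heq : i' v0 = bas Z' := by
      apply bmor_ext
      intro x
      by_cases hx : x = ⊥
      · rw [hx]
        have e1 := (hMB _ _ (i' v0).toMor).2.1
        have e2 := (hMB _ _ (bas Z').toMor).2.1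
        exact e1.trans e2.symm
      · exact (hcu.base ⟨v0, x, hx⟩ rfl hα x rfl).symm
    rw [heq] at hg0
    have h3 := hG1 _ _ _ (bas Z') k' hg0 hkg
    have h4 : (bas Z').comp k' = bas C' := by
      apply bmor_ext
      intro x
      change k' (Z'.g x) = C'.g x
      rw [k'.base, hkt, inf_top_eq]
    rwa [h4] at h3
  have h3 : ∀ (C : BA) (h k : BMor C' C), h ⊤ = k ⊤ → (∀ ξ, h (b ξ) = k (b ξ)) →
      ∀ x, h x = k x := by
    intro C h k _ hbb x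
    obtain ⟨ξ, rfl⟩ := hb2 x
    exact hbb ξ
  refine ⟨κ' + α2, b, h1, h2, h3, ?_, ?_⟩
  · rw [uv9]
    exact ⟨hCr, add_lt hUV κ hκ κ' hlt α2 hα2⟩
  intro c hc hne
  have hy : k' (i' c.v c.x) ≤ k' (i' c.v ⊤) :=
    (hMB _ _ k'.toMor).1 _ _ ((hMB _ _ (i' c.v).toMor).1 _ _ le_top)
  have hα : c.v.α < κ' := ((uv9' c.v).1 ((uv10' c).1 hc)).2
  refine ⟨((i' c.v).comp k').res (k' (i' c.v c.x)), ?_, ?_, ?_, ?_, ?_⟩
  · exact le_trans hα.le (le_self_add)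
  · exact good_res hG1 hG2 _ (hG1 _ _ _ _ _ (hUZ κ' Z' i' hκ' hcu c.v ((uv10' c).1 hc)) hkg) _
  · change k' (i' c.v ⊤) ⊓ k' (i' c.v c.x) = k' (i' c.v c.x)
    exact inf_eq_right.2 hy
  · intro ξ hξ
    change k' (i' c.v (c.v.b ξ)) ⊓ k' (i' c.v c.x) = b ξ ⊓ k' (i' c.v c.x)
    rw [hb1 ξ (hξ.trans hα), ← hu c hc ξ hξ, k'.inf, inf_assoc, inf_eq_right.2 hy]
  · change k' (i' c.v c.x) ⊓ k' (i' c.v c.x) = k' (i' c.v c.x)
    exact inf_idem _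

end Pool.Agent.H24.SF
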